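import Mathlib
import Pool.Agent.TH537.EQ.Defs

/-!
# Closed lattice cones in finite dimension are simplicial
-/

set_option autoImplicit false

open Set
open scoped Matrix Pointwise

namespace Pool.Agent.TH509.EQ

section Abs

variable {E : Type*} [AddCommGroup E] [Lattice E] [IsOrderedAddMonoid E]

lemma dj_add {x y z : E} (hx : 0 ≤ x) (hy : 0 ≤ y) (hz : 0 ≤ z) (h1 : x ⊓ y = 0)
    (h2 : x ⊓ z = 0) : x ⊓ (y + z) = 0 := by
  apply le_antisymm _ (le_inf hx (add_nonneg hy hz))
  have h3 : x ⊓ (y + z) - z ≤ y := by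
    rw [sub_le_iff_le_add]
    exact inf_le_right
  have h4 : x ⊓ (y + z) - z ≤ x := (sub_le_self _ hz).trans inf_le_left
  have h5 : x ⊓ (y + z) - z ≤ 0 := h1 ▸ le_inf h4 h3
  have h6 : x ⊓ (y + z) ≤ z := sub_nonpos.1 h5
  exact h2 ▸ le_inf inf_le_left h6

omit [IsOrderedAddMonoid E] in
lemma dj_mono {x y y' : E} (hx : 0 ≤ x) (hy' : 0 ≤ y') (h : x ⊓ y = 0) (hle : y' ≤ y) :
    x ⊓ y' = 0 :=
  le_antisymm (h ▸ inf_le_inf_left x hle) (le_inf hx hy')

lemma dj_sum {ι : Type*} (s : Finset ι) (f : ι → E) {x : E} (hx : 0 ≤ x)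
    (hf : ∀ i ∈ s, 0 ≤ f i) (h : ∀ i ∈ s, x ⊓ f i = 0) : x ⊓ ∑ i ∈ s, f i = 0 := by
  classical
  induction s using Finset.induction_on with
  | empty =>
    rw [Finset.sum_empty]
    exact inf_eq_right.2 hx
  | insert i s hi ih =>
    rw [Finset.sum_insert hi]
    exact dj_add hx (hf i (Finset.mem_insert_self i s))
      (Finset.sum_nonneg fun j hj => hf j (Finset.mem_insert_of_mem hj))
      (h i (Finset.mem_insert_self i s))
      (ih (fun j hj => hf j (Finset.mem_insert_of_mem hj))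
        fun j hj => h j (Finset.mem_insert_of_mem hj))

variable [Module ℝ E]

/-- multiplication by nonnegative numbers is positive -/
def SmPos (E : Type*) [AddCommGroup E] [Lattice E] [Module ℝ E] : Prop :=
  ∀ t : ℝ, 0 ≤ t → ∀ x : E, 0 ≤ x → 0 ≤ t • x

lemma sm_mono (hsm : SmPos E) {s t : ℝ} (hst : s ≤ t) {x : E} (hx : 0 ≤ x) : s • x ≤ t • x := by
  have h := hsm (t - s) (by linarith) x hx
  rw [sub_smul] at h
  exact sub_nonneg.1 h

lemma dj_smul (hsm : SmPos E) {x y : E} (hx : 0 ≤ x) (hy : 0 ≤ y) (h : x ⊓ y = 0) (t : ℝ)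
    (ht : 0 ≤ t) : x ⊓ (t • y) = 0 := by
  have h1 : x ⊓ ((⌈t⌉₊ : ℕ) • y) = 0 := by
    generalize ⌈t⌉₊ = n
    induction n with
    | zero =>
      rw [zero_smul]
      exact inf_eq_right.2 hx
    | succ n ih =>
      rw [succ_nsmul]
      exact dj_add hx (nsmul_nonneg hy n) hy ih h
  refine dj_mono hx (hsm t ht y hy) h1 ?_
  rw [← Nat.cast_smul_eq_nsmul ℝ]
  exact sm_mono hsm (Nat.le_ceil t) hy

lemma linInd (hsm : SmPos E) {ι : Type*} (b : ι → E) (hb : ∀ i, 0 < b i)
    (hd : ∀ i j, i ≠ j → b i ⊓ b j = 0) : LinearIndependent ℝ b := by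
  classical
  rw [linearIndependent_iff']
  intro s g hg i hi
  by_contra hne
  have hle : ∀ g' : ι → ℝ, ∑ j ∈ s, g' j • b j = 0 → 0 < g' i → False := by
    intro g' hg' hpos
    rw [← Finset.add_sum_erase _ _ hi] at hg'
    have h1 : g' i • b i ≤ ∑ j ∈ s.erase i, |g' j| • b j := by
      rw [eq_neg_of_add_eq_zero_left hg', ← Finset.sum_neg_distrib]
      refine Finset.sum_le_sum fun j _ => ?_
      rw [← neg_smul]
      exact sm_mono hsm (neg_le_abs _) (hb j).le
    have h2 : b i ⊓ ∑ j ∈ s.erase i, |g' j| • b j = 0 :=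
      dj_sum _ _ (hb i).le (fun j _ => hsm _ (abs_nonneg _) _ (hb j).le) fun j hj =>
        dj_smul hsm (hb i).le (hb j).le (hd i j (Finset.ne_of_mem_erase hj).symm) _ (abs_nonneg _)
    have h3 : (∑ j ∈ s.erase i, |g' j| • b j) ⊓ (g' i • b i) = 0 :=
      dj_smul hsm (Finset.sum_nonneg fun j _ => hsm _ (abs_nonneg _) _ (hb j).le) (hb i).le
        (by rw [inf_comm]; exact h2) _ hpos.le
    rw [inf_eq_right.2 h1] at h3
    exact (smul_ne_zero hpos.ne' (hb i).ne') h3
  rcases lt_or_gt_of_ne hne with h | h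
  · refine hle (fun j => - g j) ?_ (by simpa using h)
    simp only [neg_smul, Finset.sum_neg_distrib, hg, neg_zero]
  · exact hle g hg h

/-- families of `k` disjoint positive elements -/
def Fam (E : Type*) [AddCommGroup E] [Lattice E] (k : ℕ) : Prop :=
  ∃ b : Fin k → E, (∀ i, 0 < b i) ∧ ∀ i j, i ≠ j → b i ⊓ b j = 0

omit [IsOrderedAddMonoid E] [Module ℝ E] in
lemma fam_snoc {k : ℕ} {b : Fin k → E} (hb : ∀ i, 0 < b i) (hd : ∀ i j, i ≠ j → b i ⊓ b j = 0)
    {y : E} (hy : 0 < y) (hyd : ∀ i, b i ⊓ y = 0) : Fam E (k + 1) := by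
  refine ⟨Fin.cons y b, ?_, ?_⟩
  · intro i
    refine Fin.cases ?_ (fun i => ?_) i
    · rwa [Fin.cons_zero]
    · rw [Fin.cons_succ]
      exact hb i
  · intro i j
    refine Fin.cases ?_ (fun i => ?_) i <;> refine Fin.cases ?_ (fun j => ?_) j
    · intro h
      exact absurd rfl h
    · intro _
      rw [Fin.cons_zero, Fin.cons_succ, inf_comm]
      exact hyd j
    · intro _
      rw [Fin.cons_zero, Fin.cons_succ]
      exact hyd i
    · intro h
      rw [Fin.cons_succ, Fin.cons_succ]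
      exact hd i j fun h' => h (by rw [h'])

/-- the members of a maximal family are atoms -/
lemma atom (hsm : SmPos E) (hcl : ∀ x y : E, IsClosed {t : ℝ | 0 ≤ x + t • y}) {k : ℕ}
    (hmax : ¬ Fam E (k + 1)) {b : Fin k → E} (hb : ∀ i, 0 < b i)
    (hd : ∀ i j, i ≠ j → b i ⊓ b j = 0) (i : Fin k) {x : E} (hx : 0 ≤ x) (hxb : x ≤ b i) :
    ∃ t : ℝ, 0 ≤ t ∧ x = t • b i := by
  classical
  -- elements below multiples of `b i` are comparable
  have h1 : ∀ u v : E, 0 ≤ u → 0 ≤ v → ∀ M : ℝ, 0 ≤ M → u ≤ M • b i → v ≤ M • b i → u ⊓ v = 0 →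
      u = 0 ∨ v = 0 := by
    intro u v hu hv M hM huM hvM huv
    by_contra hcon
    push Not at hcon
    apply hmax
    have hdis : ∀ w : E, 0 ≤ w → w ≤ M • b i → ∀ j, j ≠ i → b j ⊓ w = 0 := by
      intro w hw hwM j hj
      exact dj_mono (hb j).le hw (dj_smul hsm (hb j).le (hb i).le (hd j i hj) M hM) hwM
    refine fam_snoc (b := Function.update b i u) ?_ ?_ (lt_of_le_of_ne hv hcon.2.symm) ?_
    · intro j
      by_cases hj : j = i
      · subst hj
        rw [Function.update_self]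
        exact lt_of_le_of_ne hu hcon.1.symm
      · rw [Function.update_of_ne hj]
        exact hb j
    · intro j j' hjj
      by_cases hj : j = i
      · subst hj
        rw [Function.update_self, Function.update_of_ne hjj.symm, inf_comm]
        exact hdis u hu huM j' hjj.symm
      · rw [Function.update_of_ne hj]
        by_cases hj' : j' = i
        · subst hj'
          rw [Function.update_self]
          exact hdis u hu huM j hj
        · rw [Function.update_of_ne hj']
          exact hd j j' hjj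
    · intro j
      by_cases hj : j = i
      · subst hj
        rw [Function.update_self]
        exact huv
      · rw [Function.update_of_ne hj]
        exact hdis v hv hvM j hj
  have h2 : ∀ t : ℝ, 0 ≤ t → x ≤ t • b i ∨ t • b i ≤ x := by
    intro t ht
    have hbt : 0 ≤ t • b i := hsm t ht _ (hb i).le
    have h3 : (x - t • b i)⁺ ≤ x := by
      rw [posPart_def]
      exact sup_le (sub_le_self _ hbt) hx
    have h4 : (x - t • b i)⁻ ≤ t • b i := by
      rw [negPart_def, neg_sub]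
      exact sup_le (sub_le_self _ hx) hbt
    have h5 : (x - t • b i)⁺ ≤ (max 1 t) • b i := by
      refine h3.trans (hxb.trans ?_)
      have h5 := sm_mono hsm (le_max_left 1 t) (hb i).le
      rwa [one_smul] at h5
    have h6 : (x - t • b i)⁻ ≤ (max 1 t) • b i :=
      h4.trans (sm_mono hsm (le_max_right 1 t) (hb i).le)
    rcases h1 _ _ (posPart_nonneg (x - t • b i)) (negPart_nonneg (x - t • b i)) (max 1 t)
      (le_max_of_le_left zero_le_one) h5 h6 (posPart_inf_negPart_eq_zero _) with h | h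
    · left
      exact sub_nonpos.1 (posPart_eq_zero.1 h)
    · right
      exact sub_nonneg.1 (negPart_eq_zero.1 h)
  set S : Set ℝ := {t : ℝ | 0 ≤ x + t • (-b i)} with hS
  have hSt : ∀ t, t ∈ S ↔ t • b i ≤ x := by
    intro t
    rw [hS, mem_ofPred_eq, smul_neg, ← sub_eq_add_neg, sub_nonneg]
  have h0S : (0 : ℝ) ∈ S := by
    rw [hSt, zero_smul]
    exact hx
  have hSb : ∀ t ∈ S, t ≤ 1 := by
    intro t ht
    rw [hSt] at ht
    by_contra hlt
    push Not at hlt
    have h5 := ht.trans hxb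
    have h6 : (t - 1) • b i ≤ 0 := by
      rw [sub_smul, one_smul]
      exact sub_nonpos.2 h5
    have h7 : 0 ≤ (t - 1) • b i := hsm _ (by linarith) _ (hb i).le
    exact smul_ne_zero (by linarith) (hb i).ne' (le_antisymm h6 h7)
  have hbdd : BddAbove S := ⟨1, fun t ht => hSb t ht⟩
  have hmem : sSup S ∈ S := (hcl x (-b i)).csSup_mem ⟨0, h0S⟩ hbdd
  have hs0 : 0 ≤ sSup S := le_csSup hbdd h0S
  refine ⟨sSup S, hs0, le_antisymm ?_ ((hSt _).1 hmem)⟩
  -- the other inequality by closedness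
  have h5 : ∀ t : ℝ, sSup S < t → t ∈ {t : ℝ | 0 ≤ -x + t • b i} := by
    intro t ht
    rw [mem_ofPred_eq, neg_add_eq_sub, sub_nonneg]
    rcases h2 t (by linarith) with h | h
    · exact h
    · exact absurd (le_csSup hbdd ((hSt t).2 h)) (not_le.2 ht)
  have h6 : sSup S ∈ {t : ℝ | 0 ≤ -x + t • b i} := by
    have h7 : closure (Ioi (sSup S)) ⊆ {t : ℝ | 0 ≤ -x + t • b i} :=
      closure_minimal (fun t ht => h5 t ht) (hcl (-x) (b i))
    rw [closure_Ioi] at h7
    exact h7 self_mem_Ici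
  rw [mem_ofPred_eq, neg_add_eq_sub, sub_nonneg] at h6
  exact h6

/-- positive elements are nonnegative combinations of the members of a maximal family -/
lemma comb (hsm : SmPos E) (hcl : ∀ x y : E, IsClosed {t : ℝ | 0 ≤ x + t • y}) {k : ℕ}
    (hmax : ¬ Fam E (k + 1)) {b : Fin k → E} (hb : ∀ i, 0 < b i)
    (hd : ∀ i j, i ≠ j → b i ⊓ b j = 0) {x : E} (hx : 0 ≤ x) :
    ∃ t : Fin k → ℝ, (∀ i, 0 ≤ t i) ∧ x = ∑ i, t i • b i := by
  classical
  have h1 : ∀ i, ∃ t : ℝ, 0 ≤ t ∧ t • b i ≤ x ∧ ∀ s : ℝ, s • b i ≤ x → s ≤ t := by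
    intro i
    set S : Set ℝ := {t : ℝ | 0 ≤ x + t • (-b i)} with hS
    have hSt : ∀ t, t ∈ S ↔ t • b i ≤ x := by
      intro t
      rw [hS, mem_ofPred_eq, smul_neg, ← sub_eq_add_neg, sub_nonneg]
    have h0S : (0 : ℝ) ∈ S := by
      rw [hSt, zero_smul]
      exact hx
    have hbdd : BddAbove S := by
      by_contra hnb
      rw [not_bddAbove_iff] at hnb
      -- then `- b i` is positive
      have h2 : (0 : ℝ) ∈ {t : ℝ | 0 ≤ -b i + t • x} := by
        have h3 : ∀ ε > 0, ∃ t ∈ {t : ℝ | 0 ≤ -b i + t • x}, |t - 0| < ε := by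
          intro ε hε
          obtain ⟨t, htS, ht⟩ := hnb (1 / ε)
          have ht0 : 0 < t := lt_trans (by positivity) ht
          refine ⟨t⁻¹, ?_, ?_⟩
          · rw [mem_ofPred_eq, neg_add_eq_sub, sub_nonneg]
            have h4 := hsm t⁻¹ (inv_nonneg.2 ht0.le) _ (sub_nonneg.2 ((hSt t).1 htS))
            rw [smul_sub, smul_smul, inv_mul_cancel₀ ht0.ne', one_smul] at h4
            exact sub_nonneg.1 h4
          · rw [sub_zero, abs_of_pos (inv_pos.2 ht0), inv_lt_comm₀ ht0 hε]
            rwa [one_div] at ht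
        have h4 : (0 : ℝ) ∈ closure {t : ℝ | 0 ≤ -b i + t • x} := by
          rw [Metric.mem_closure_iff]
          intro ε hε
          obtain ⟨t, ht, htε⟩ := h3 ε hε
          exact ⟨t, ht, by rw [dist_comm, Real.dist_eq]; exact htε⟩
        rwa [(hcl (-b i) x).closure_eq] at h4
      rw [mem_ofPred_eq, zero_smul, add_zero, Left.nonneg_neg_iff] at h2
      exact absurd h2 (hb i).not_ge
    refine ⟨sSup S, le_csSup hbdd h0S, (hSt _).1 ((hcl x (-b i)).csSup_mem ⟨0, h0S⟩ hbdd), ?_⟩
    intro s hs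
    exact le_csSup hbdd ((hSt s).2 hs)
  choose t ht0 htx htm using h1
  have hnn : ∀ i, 0 ≤ t i • b i := fun i => hsm _ (ht0 i) _ (hb i).le
  have h2 : ∀ s : Finset (Fin k), ∑ i ∈ s, t i • b i ≤ x := by
    intro s
    induction s using Finset.induction_on with
    | empty => rw [Finset.sum_empty]; exact hx
    | insert i s hi ih =>
      rw [Finset.sum_insert hi]
      have h3 : (t i • b i) ⊓ ∑ j ∈ s, t j • b j = 0 := by
        refine dj_sum _ _ (hnn i) (fun j _ => hnn j) fun j hj => ?_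
        have hij : i ≠ j := fun h => hi (h ▸ hj)
        refine dj_smul hsm (hnn i) (hb j).le ?_ _ (ht0 j)
        rw [inf_comm]
        exact dj_smul hsm (hb j).le (hb i).le (hd j i hij.symm) _ (ht0 i)
      have h4 := inf_add_sup (t i • b i) (∑ j ∈ s, t j • b j)
      rw [h3, zero_add] at h4
      rw [← h4]
      exact sup_le (htx i) ih
  refine ⟨t, ht0, ?_⟩
  have hy : 0 ≤ x - ∑ i, t i • b i := sub_nonneg.2 (h2 Finset.univ)
  by_contra hne
  apply hmax
  refine fam_snoc hb hd (y := x - ∑ i, t i • b i)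
    (lt_of_le_of_ne hy fun h => hne (sub_eq_zero.1 h.symm)) fun i => ?_
  obtain ⟨s, hs0, hs⟩ := atom hsm hcl hmax hb hd i
    (x := b i ⊓ (x - ∑ i, t i • b i)) (le_inf (hb i).le hy) inf_le_left
  have h3 : s • b i ≤ x - ∑ i, t i • b i := hs ▸ inf_le_right
  have h4 : (s + t i) • b i ≤ x := by
    have h5 : t i • b i ≤ ∑ j, t j • b j :=
      Finset.single_le_sum (f := fun j => t j • b j) (fun j _ => hnn j) (Finset.mem_univ i)
    rw [add_smul]
    have h6 := add_le_add h3 h5
    rwa [sub_add_cancel] at h6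
  have h5 := htm i _ h4
  have h6 : s = 0 := by linarith
  rw [hs, h6, zero_smul]

theorem abs_lat [FiniteDimensional ℝ E] (hsm : SmPos E)
    (hcl : ∀ x y : E, IsClosed {t : ℝ | 0 ≤ x + t • y}) :
    ∃ (k : ℕ) (b : Fin k → E), LinearIndependent ℝ b ∧
      ∀ x : E, 0 ≤ x ↔ ∃ t : Fin k → ℝ, (∀ i, 0 ≤ t i) ∧ x = ∑ i, t i • b i := by
  obtain ⟨k, hk, hmax⟩ : ∃ k, Fam E k ∧ ¬ Fam E (k + 1) := by
    by_contra hcon
    push Not at hcon
    have h1 : ∀ k, Fam E k := by
      intro k
      induction k with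
      | zero => exact ⟨Fin.elim0, fun i => i.elim0, fun i => i.elim0⟩
      | succ k ih => exact hcon k ih
    obtain ⟨b, hb, hd⟩ := h1 (Module.finrank ℝ E + 1)
    have h2 := (linInd hsm b hb hd).fintype_card_le_finrank
    rw [Fintype.card_fin] at h2
    omega
  obtain ⟨b, hb, hd⟩ := hk
  refine ⟨k, b, linInd hsm b hb hd, fun x => ⟨fun hx => comb hsm hcl hmax hb hd hx, ?_⟩⟩
  rintro ⟨t, ht, rfl⟩
  exact Finset.sum_nonneg fun i _ => hsm _ (ht i) _ (hb i).le

end Abs

/-- closed cones which are lattice cones are simplicial, without an order instance -/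
theorem cone_lat {E : Type*} [AddCommGroup E] [Module ℝ E] [FiniteDimensional ℝ E] (C : Set E)
    (hadd : ∀ x ∈ C, ∀ y ∈ C, x + y ∈ C) (hsm : ∀ t : ℝ, 0 ≤ t → ∀ x ∈ C, t • x ∈ C)
    (h0 : (0 : E) ∈ C) (hpt : ∀ x ∈ C, -x ∈ C → x = 0)
    (hcl : ∀ x y : E, IsClosed {t : ℝ | x + t • y ∈ C})
    (hlat : ∀ z : E, ∃ a : E, ∀ x, (x ∈ C ∧ x - z ∈ C) ↔ x - a ∈ C) :
    ∃ (k : ℕ) (b : Fin k → E), LinearIndependent ℝ b ∧
      C = {x | ∃ t : Fin k → ℝ, (∀ i, 0 ≤ t i) ∧ x = ∑ i, t i • b i} := by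
  choose a ha using hlat
  have hsup : ∀ x y z : E, (z - x ∈ C ∧ z - y ∈ C) ↔ z - (x + a (y - x)) ∈ C := by
    intro x y z
    have h := ha (y - x) (z - x)
    rw [sub_sub_sub_cancel_right, sub_sub] at h
    exact h
  let P : PartialOrder E :=
    { le := fun x y => y - x ∈ C
      le_refl := fun x => by change x - x ∈ C; rw [sub_self]; exact h0
      le_trans := fun x y z hxy hyz => by
        change z - x ∈ C
        have := hadd _ hyz _ hxy
        rwa [sub_add_sub_cancel] at this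
      le_antisymm := fun x y hxy hyx => by
        have h1 := hpt _ hxy (by rw [neg_sub]; exact hyx)
        exact (sub_eq_zero.1 h1).symm }
  have hle : ∀ x y : E, x ≤ y ↔ y - x ∈ C := fun x y => Iff.rfl
  let _ : Lattice E :=
    { P with
      sup := fun x y => x + a (y - x)
      le_sup_left := fun x y => by
        rw [hle]
        exact ((hsup x y _).2 (by rw [sub_self]; exact h0)).1
      le_sup_right := fun x y => by
        rw [hle]
        exact ((hsup x y _).2 (by rw [sub_self]; exact h0)).2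
      sup_le := fun x y z hxz hyz => by
        rw [hle]
        exact (hsup x y z).1 ⟨hxz, hyz⟩
      inf := fun x y => -(-x + a (-y - -x))
      inf_le_left := fun x y => by
        rw [hle, sub_neg_eq_add]
        have h := ((hsup (-x) (-y) _).2 (by rw [sub_self]; exact h0)).1
        rwa [sub_neg_eq_add, add_comm] at h
      inf_le_right := fun x y => by
        rw [hle, sub_neg_eq_add]
        have h := ((hsup (-x) (-y) _).2 (by rw [sub_self]; exact h0)).2
        rwa [sub_neg_eq_add, add_comm] at h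
      le_inf := fun x y z hxy hxz => by
        rw [hle] at hxy hxz ⊢
        have h := (hsup (-y) (-z) (-x)).1 ⟨by rwa [neg_sub_neg], by rwa [neg_sub_neg]⟩
        have h' : -(-y + a (-z - -y)) - x = -x - (-y + a (-z - -y)) := by abel
        rw [h']
        exact h }
  have _ : IsOrderedAddMonoid E :=
    { add_le_add_left := fun x y hxy z => by
        rw [hle] at hxy ⊢
        rwa [add_sub_add_right_eq_sub] }
  have h0le : ∀ x : E, 0 ≤ x ↔ x ∈ C := fun x => by rw [hle, sub_zero]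
  obtain ⟨k, b, hli, hb⟩ := abs_lat (E := E)
    (fun t ht x hx => (h0le _).2 (hsm t ht x ((h0le x).1 hx)))
    (fun x y => by
      have h := hcl x y
      simp only [← h0le] at h
      exact h)
  refine ⟨k, b, hli, ?_⟩
  ext x
  rw [← h0le, hb x]
  rfl

open Pool.Agent.TH537.EQ in
theorem t_LC : Pool.Agent.TH537.EQ.S_LC := by
  intro N C e hC he hL
  have hne : C.Nonempty := hC.int.mono interior_subset
  have h0 : (0 : Fin N → ℝ) ∈ C := by
    obtain ⟨x, hx⟩ := hne
    have := hC.smul 0 le_rfl x hx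
    rwa [zero_smul] at this
  have hadd : ∀ x ∈ C, ∀ y ∈ C, x + y ∈ C := by
    intro x hx y hy
    have h := hC.smul 2 (by norm_num) _ (hC.convex hx hy (by norm_num : (0 : ℝ) ≤ 1 / 2)
      (by norm_num : (0 : ℝ) ≤ 1 / 2) (by norm_num))
    rw [smul_add, smul_smul, smul_smul] at h
    norm_num at h
    exact h
  have hpt : ∀ x ∈ C, -x ∈ C → x = 0 := by
    intro x hx hnx
    by_contra hne
    have h1 := he x hx hne
    have h2 := he (-x) hnx (neg_ne_zero.2 hne)
    rw [neg_dotProduct] at h2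
    linarith
  obtain ⟨k, b, hli, hb⟩ := cone_lat C hadd hC.smul h0 hpt
    (fun x y => hC.closed.preimage (by fun_prop)) hL
  have hspan : Submodule.span ℝ (range b) = ⊤ := by
    apply Submodule.eq_top_of_nonempty_interior'
    refine hC.int.mono (interior_mono ?_)
    rw [hb]
    rintro x ⟨t, _, rfl⟩
    exact Submodule.sum_mem _ fun i _ =>
      Submodule.smul_mem _ _ (Submodule.subset_span (mem_range_self i))
  have hk : k = N := by
    have h1 := Module.finrank_eq_card_basis (Module.Basis.mk hli hspan.ge)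
    rw [Module.finrank_fin_fun, Fintype.card_fin] at h1
    exact h1.symm
  subst hk
  exact ⟨b, hli, hb⟩

end Pool.Agent.TH509.EQ
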